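import Pool.Agent.H97.NR.Stmts

/-! Module B2O of project NR: `p x = z`, the block `M` is zero. -/

set_option autoImplicit false

namespace Pool.NR

namespace B2O

variable {p : ℕ} [Fact p.Prime]

theorem mk (a b1 b2 c1 c2 u h1 h2 g11 g12 g21 g22 a' b1' b2' c1' c2' : ZMod p) (hu : u ≠ 0)
    (hd : g11 * g22 - g12 * g21 ≠ 0) (ha : a' = u * a + h1 * (b1 + c1) + h2 * (b2 + c2))
    (hb1 : b1' = g11 * b1 + g21 * b2) (hb2 : b2' = g12 * b1 + g22 * b2)
    (hc1 : c1' = g11 * c1 + g21 * c2) (hc2 : c2' = g12 * c1 + g22 * c2) :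
    Eq2b (T2b a b1 b2 c1 c2 0 0 0 0) (T2b a' b1' b2' c1' c2' 0 0 0 0) := by
  subst ha hb1 hb2 hc1 hc2
  refine ⟨u, h1, h2, g11, g12, g21, g22, hu, hd, ?_⟩
  intro i j
  fin_cases i <;> fin_cases j <;> simp [T2b, Fin.sum_univ_three] <;> ring

end B2O

open B2O in
theorem b2o : B2OStmt := by
  intro p hp a b1 b2 c1 c2
  by_cases hD : b1 * c2 - b2 * c1 = 0
  · -- dependent
    by_cases hb : b1 = 0 ∧ b2 = 0
    · obtain ⟨rfl, rfl⟩ := hb
      by_cases hc1 : c1 = 0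
      · by_cases hc2 : c2 = 0
        · subst hc1 hc2
          by_cases ha : a = 0
          · subst ha
            exact ⟨_, NF2bO.o5 0 (Or.inl rfl), mk _ _ _ _ _ 1 0 0 1 0 0 1 _ _ _ _ _ one_ne_zero
              (by simp) (by ring) (by ring) (by ring) (by ring) (by ring)⟩
          · exact ⟨_, NF2bO.o5 1 (Or.inr rfl), mk _ _ _ _ _ a⁻¹ 0 0 1 0 0 1 _ _ _ _ _
              (inv_ne_zero ha) (by simp) (by field_simp; ring) (by ring) (by ring) (by ring)
              (by ring)⟩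
        · subst hc1
          exact ⟨_, NF2bO.o3, mk _ _ _ _ _ 1 0 (-a * c2⁻¹) 0 1 c2⁻¹ 0 _ _ _ _ _ one_ne_zero
            (by simp [hc2]) (by field_simp; ring) (by ring) (by ring) (by field_simp; ring)
            (by ring)⟩
      · exact ⟨_, NF2bO.o3, mk _ _ _ _ _ 1 (-a * c1⁻¹) 0 c1⁻¹ (-c2) 0 c1 _ _ _ _ _ one_ne_zero
          (by simp [hc1]) (by field_simp; ring) (by ring) (by ring) (by field_simp; ring)
          (by ring)⟩
    · -- `c = γ b`
      obtain ⟨γ, g11, g12, g21, g22, hg, e1, e2, e3, e4⟩ : ∃ γ g11 g12 g21 g22 : ZMod p,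
          g11 * g22 - g12 * g21 ≠ 0 ∧ 1 = g11 * b1 + g21 * b2 ∧ 0 = g12 * b1 + g22 * b2 ∧
          γ = g11 * c1 + g21 * c2 ∧ 0 = g12 * c1 + g22 * c2 := by
        by_cases hb1 : b1 = 0
        · have hb2 : b2 ≠ 0 := fun h => hb ⟨hb1, h⟩
          subst hb1
          have hc1 : c1 = 0 := by
            have : b2 * c1 = 0 := by linear_combination -hD
            rcases mul_eq_zero.1 this with h | h
            · exact absurd h hb2
            · exact h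
          subst hc1
          exact ⟨c2 * b2⁻¹, 0, 1, b2⁻¹, 0, by simp [hb2], by field_simp; ring, by ring, by ring,
            by ring⟩
        · refine ⟨c1 * b1⁻¹, b1⁻¹, -b2, 0, b1, by simp [hb1], by field_simp; ring, by ring, by ring,
            ?_⟩
          linear_combination -hD
      by_cases hγ : γ = -1
      · subst hγ
        by_cases ha : a = 0
        · subst ha
          exact ⟨_, NF2bO.o4 0 (Or.inl rfl), mk _ _ _ _ _ 1 0 0 g11 g12 g21 g22 _ _ _ _ _ one_ne_zero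
            hg (by ring) e1 e2 e3 e4⟩
        · exact ⟨_, NF2bO.o4 1 (Or.inr rfl), mk _ _ _ _ _ a⁻¹ 0 0 g11 g12 g21 g22 _ _ _ _ _
            (inv_ne_zero ha) hg (by field_simp; ring) e1 e2 e3 e4⟩
      · have hγ1 : 1 + γ ≠ 0 := fun h => hγ (by linear_combination h)
        refine ⟨_, NF2bO.o2 γ hγ, mk _ _ _ _ _ 1 (-a * (1 + γ)⁻¹ * g11) (-a * (1 + γ)⁻¹ * g21)
          g11 g12 g21 g22 _ _ _ _ _ one_ne_zero hg ?_ e1 e2 e3 e4⟩
        have : (1 + γ)⁻¹ * (1 + γ) = 1 := inv_mul_cancel₀ hγ1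
        linear_combination a * this - a * (1 + γ)⁻¹ * (e1 + e3)
  · refine ⟨_, NF2bO.o1, mk _ _ _ _ _ 1 (-a * (c2 * (b1 * c2 - b2 * c1)⁻¹))
      (-a * (-c1 * (b1 * c2 - b2 * c1)⁻¹)) (c2 * (b1 * c2 - b2 * c1)⁻¹)
      (-b2 * (b1 * c2 - b2 * c1)⁻¹) (-c1 * (b1 * c2 - b2 * c1)⁻¹) (b1 * (b1 * c2 - b2 * c1)⁻¹)
      _ _ _ _ _ one_ne_zero ?_ ?_ ?_ ?_ ?_ ?_⟩
    · have : c2 * (b1 * c2 - b2 * c1)⁻¹ * (b1 * (b1 * c2 - b2 * c1)⁻¹) -
          -b2 * (b1 * c2 - b2 * c1)⁻¹ * (-c1 * (b1 * c2 - b2 * c1)⁻¹) =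
          (b1 * c2 - b2 * c1)⁻¹ := by
        field_simp
      rw [this]
      exact inv_ne_zero hD
    · have : (b1 * c2 - b2 * c1)⁻¹ * (b1 * c2 - b2 * c1) = 1 := inv_mul_cancel₀ hD
      linear_combination a * this
    · have : (b1 * c2 - b2 * c1)⁻¹ * (b1 * c2 - b2 * c1) = 1 := inv_mul_cancel₀ hD
      linear_combination -this
    · ring
    · ring
    · have : (b1 * c2 - b2 * c1)⁻¹ * (b1 * c2 - b2 * c1) = 1 := inv_mul_cancel₀ hD
      linear_combination -this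

end Pool.NR
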