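import Pool.Agent.H97.NR.Stmts

/-! Module RC2 of project NR: two tables `tab22` of the same ring are related by `Eqv22`. -/

set_option autoImplicit false

universe u

namespace Pool.NR

namespace RC2

variable {p : ℕ} [hp : Fact p.Prime] {R : Type u} [NonUnitalRing R]

/-- the multiples of `w` by residues modulo `p` -/
noncomputable def ph (w : R) (hw : p • w = 0) : ZMod p →+ R :=
  ZMod.lift p ⟨zmultiplesHom R w, by simpa using hw⟩

theorem ph_int (w : R) (hw : p • w = 0) (n : ℤ) : ph w hw (n : ZMod p) = n • w := by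
  unfold ph
  rw [ZMod.lift_coe]
  simp

theorem ph_val (w : R) (hw : p • w = 0) (a : ZMod p) : ph w hw a = a.val • w := by
  have := ph_int w hw (a.val : ℤ)
  rw [Int.cast_natCast, ZMod.natCast_zmod_val, natCast_zsmul] at this
  exact this

/-- combinations of `w0`, `w1` -/
noncomputable def Ph (w0 w1 : R) (h0 : p • w0 = 0) (h1 : p • w1 = 0) : (Fin 2 → ZMod p) →+ R :=
  (ph w0 h0).comp (Pi.evalAddMonoidHom (fun _ : Fin 2 => ZMod p) 0) +
    (ph w1 h1).comp (Pi.evalAddMonoidHom (fun _ : Fin 2 => ZMod p) 1)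

theorem Ph_apply (w0 w1 : R) (h0 : p • w0 = 0) (h1 : p • w1 = 0) (v : Fin 2 → ZMod p) :
    Ph w0 w1 h0 h1 v = ph w0 h0 (v 0) + ph w1 h1 (v 1) := rfl

theorem Ph_val (w0 w1 : R) (h0 : p • w0 = 0) (h1 : p • w1 = 0) (v : Fin 2 → ZMod p) :
    Ph w0 w1 h0 h1 v = (v 0).val • w0 + (v 1).val • w1 := by
  rw [Ph_apply, ph_val, ph_val]

theorem Ph_int (w0 w1 : R) (h0 : p • w0 = 0) (h1 : p • w1 = 0) (a b : ℤ) :
    Ph w0 w1 h0 h1 ![(a : ZMod p), (b : ZMod p)] = a • w0 + b • w1 := by
  rw [Ph_apply]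
  simp only [Matrix.cons_val_zero, Matrix.cons_val_one]
  rw [ph_int, ph_int]

theorem exists_coeff {g : Fin 4 → R} (h : AddSubgroup.closure (Set.range g) = ⊤) (r : R) :
    ∃ n : Fin 4 → ℤ, r = ∑ i, n i • g i := by
  have hr : r ∈ AddSubgroup.closure (Set.range g) := h ▸ AddSubgroup.mem_top r
  induction hr using AddSubgroup.closure_induction with
  | mem x hx =>
    obtain ⟨i, rfl⟩ := hx
    refine ⟨Pi.single i 1, ?_⟩
    rw [Finset.sum_eq_single i]
    · simp
    · intro b _ hb
      simp [Pi.single_eq_of_ne hb]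
    · intro h'
      exact absurd (Finset.mem_univ i) h'
  | zero => exact ⟨0, by simp⟩
  | add x y _ _ hx hy =>
    obtain ⟨n, hn⟩ := hx
    obtain ⟨m, hm⟩ := hy
    refine ⟨n + m, ?_⟩
    rw [hn, hm]
    simp [add_smul, Finset.sum_add_distrib]
  | neg x _ hx =>
    obtain ⟨n, hn⟩ := hx
    refine ⟨-n, ?_⟩
    rw [hn]
    simp [neg_smul, Finset.sum_neg_distrib]

/-- data extracted from a table `tab22` -/
structure Dt (p : ℕ) [Fact p.Prime] (R : Type u) [NonUnitalRing R] (π : Fin 2 → Fin 2 → ZMod p)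
    (B : Fin 2 → Fin 2 → Fin 2 → ZMod p) (x : Fin 2 → R) (Φ : (Fin 2 → ZMod p) →+ R) : Prop where
  gen : ∀ r : R, ∃ (n : Fin 2 → ℤ) (v : Fin 2 → ZMod p), r = ∑ i, n i • x i + Φ v
  px : ∀ i, p • x i = Φ (π i)
  pw : ∀ v, p • Φ v = 0
  xx : ∀ i j, x i * x j = Φ (fun l => B l i j)
  xw : ∀ i v, x i * Φ v = 0
  wx : ∀ i v, Φ v * x i = 0
  ww : ∀ v v', Φ v * Φ v' = 0
  ind : ∀ (n : Fin 2 → ℤ) (v : Fin 2 → ZMod p), ∑ i, n i • x i + Φ v = 0 → ∀ i, (p : ℤ) ∣ n i
  inj : Function.Injective Φ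

omit hp in
theorem tabUp (π : Fin 2 → Fin 2 → ZMod p) (B : Fin 2 → Fin 2 → Fin 2 → ZMod p) :
    TabUp (tab22 π B) := by
  intro i j hij
  fin_cases i <;> fin_cases j <;> first | rfl | (exact absurd hij (by decide))

theorem exists_Dt (hb : BASStmt.{u}) (π : Fin 2 → Fin 2 → ZMod p)
    (B : Fin 2 → Fin 2 → Fin 2 → ZMod p) (hc : Nat.card R = p ^ 4)
    (hT : HasTab p R (tab22 π B)) : ∃ x Φ, Dt p R π B x Φ := by
  obtain ⟨g, hcl, hP, hM⟩ := hT
  have h0 : p • g 2 = 0 := by rw [hP 2]; simp [tab22]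
  have h1 : p • g 3 = 0 := by rw [hP 3]; simp [tab22]
  have hbas := hb p R (tab22 π B) hc (tabUp π B) g hcl hP
  have hPh : ∀ (n : Fin 2 → ℤ) (v : Fin 2 → ZMod p),
      ∑ i, n i • (![g 0, g 1] : Fin 2 → R) i + Ph (g 2) (g 3) h0 h1 v =
        ∑ i, (![n 0, n 1, ((v 0).val : ℤ), ((v 1).val : ℤ)] : Fin 4 → ℤ) i • g i := by
    intro n v
    rw [Ph_val, Fin.sum_univ_four, Fin.sum_univ_two]
    simp only [Matrix.cons_val_zero, Matrix.cons_val_one, Matrix.cons_val, natCast_zsmul]
    abel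
  have hM2 : ∀ i j : Fin 4, (2 ≤ i ∨ 2 ≤ j) → g i * g j = 0 := by
    intro i j hij
    rw [hM i j]
    fin_cases i <;> fin_cases j <;> first | (exact absurd hij (by decide)) | simp [tab22]
  refine ⟨![g 0, g 1], Ph (g 2) (g 3) h0 h1, ?_⟩
  refine ⟨?_, ?_, ?_, ?_, ?_, ?_, ?_, ?_, ?_⟩
  · intro r
    obtain ⟨n, rfl⟩ := exists_coeff hcl r
    refine ⟨![n 0, n 1], ![(n 2 : ZMod p), (n 3 : ZMod p)], ?_⟩
    rw [Ph_int, Fin.sum_univ_four, Fin.sum_univ_two]
    simp only [Matrix.cons_val_zero, Matrix.cons_val_one]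
    abel
  · intro i
    rw [Ph_val]
    fin_cases i
    · have := hP 0
      simpa [tab22, Fin.sum_univ_four] using this
    · have := hP 1
      simpa [tab22, Fin.sum_univ_four] using this
  · intro v
    rw [Ph_val, smul_add, smul_comm, h0, smul_zero, smul_comm, h1, smul_zero, add_zero]
  · intro i j
    rw [Ph_val]
    fin_cases i <;> fin_cases j
    · have := hM 0 0
      simpa [tab22, Fin.sum_univ_four] using this
    · have := hM 0 1
      simpa [tab22, Fin.sum_univ_four] using this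
    · have := hM 1 0
      simpa [tab22, Fin.sum_univ_four] using this
    · have := hM 1 1
      simpa [tab22, Fin.sum_univ_four] using this
  · intro i v
    rw [Ph_val]
    fin_cases i
    · simp only [Fin.zero_eta, Matrix.cons_val_zero, mul_add, mul_smul_comm]
      rw [hM2 0 2 (by decide), hM2 0 3 (by decide)]
      simp
    · simp only [Fin.mk_one, Matrix.cons_val_one, Matrix.cons_val_fin_one, mul_add, mul_smul_comm]
      rw [hM2 1 2 (by decide), hM2 1 3 (by decide)]
      simp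
  · intro i v
    rw [Ph_val]
    fin_cases i
    · simp only [Fin.zero_eta, Matrix.cons_val_zero, add_mul, smul_mul_assoc]
      rw [hM2 2 0 (by decide), hM2 3 0 (by decide)]
      simp
    · simp only [Fin.mk_one, Matrix.cons_val_one, Matrix.cons_val_fin_one, add_mul, smul_mul_assoc]
      rw [hM2 2 1 (by decide), hM2 3 1 (by decide)]
      simp
  · intro v v'
    rw [Ph_val, Ph_val]
    simp only [add_mul, mul_add, smul_mul_assoc, mul_smul_comm]
    rw [hM2 2 2 (by decide), hM2 2 3 (by decide), hM2 3 2 (by decide), hM2 3 3 (by decide)]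
    simp
  · intro n v hn
    rw [hPh] at hn
    obtain ⟨c, hc⟩ := hbas _ hn
    have e0 := hc 0
    have e1 := hc 1
    simp only [tab22, Fin.sum_univ_four, Matrix.cons_val_zero, Matrix.cons_val_one, Matrix.cons_val,
      Pi.zero_apply, Nat.cast_zero, mul_zero, add_zero, sub_zero] at e0 e1
    intro i
    fin_cases i
    · exact ⟨c 0, e0⟩
    · exact ⟨c 1, e1⟩
  · rw [injective_iff_map_eq_zero]
    intro v hv
    have hn := hPh 0 v
    rw [hv] at hn
    simp only [Pi.zero_apply, zero_smul, Finset.sum_const_zero, add_zero] at hn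
    obtain ⟨c, hc⟩ := hbas _ hn.symm
    have e0 := hc 0
    have e1 := hc 1
    have e2 := hc 2
    have e3 := hc 3
    simp only [tab22, Fin.sum_univ_four, Matrix.cons_val_zero, Matrix.cons_val_one, Matrix.cons_val,
      Pi.zero_apply, Nat.cast_zero, mul_zero, add_zero, sub_zero] at e0 e1 e2 e3
    have hp0 : (p : ℤ) ≠ 0 := by exact_mod_cast hp.out.ne_zero
    have c0 : c 0 = 0 := by
      rcases mul_eq_zero.1 e0.symm with h | h
      · exact absurd h hp0
      · exact h
    have c1 : c 1 = 0 := by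
      rcases mul_eq_zero.1 e1.symm with h | h
      · exact absurd h hp0
      · exact h
    rw [c0, c1] at e2 e3
    simp only [zero_mul, add_zero, sub_zero] at e2 e3
    have key : ∀ a : ZMod p, (∃ k : ℤ, (a.val : ℤ) = p * k) → a = 0 := by
      rintro a ⟨k, hk⟩
      have h2 : ((a.val : ℤ) : ZMod p) = 0 := by
        rw [hk]; push_cast; simp
      rw [← ZMod.natCast_zmod_val a]
      exact_mod_cast h2
    funext l
    fin_cases l
    · exact key _ ⟨_, e2⟩
    · exact key _ ⟨_, e3⟩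

/-- the vectors `π i` and `B · i j` generate -/
theorem span2 {π : Fin 2 → Fin 2 → ZMod p} {B : Fin 2 → Fin 2 → Fin 2 → ZMod p}
    (hs : Surj22 π B) (K : AddSubgroup (Fin 2 → ZMod p)) (h1 : ∀ i, π i ∈ K)
    (h2 : ∀ i j, (fun l => B l i j) ∈ K) : K = ⊤ := by
  by_contra hK
  have hS : AddSubgroup.toZModSubmodule p K < ⊤ := by
    rw [lt_top_iff_ne_top]
    intro h
    apply hK
    rw [eq_top_iff]
    intro x _
    have : x ∈ AddSubgroup.toZModSubmodule p K := h ▸ Submodule.mem_top
    exact this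
  obtain ⟨f, hf, hle⟩ := Submodule.exists_le_ker_of_lt_top _ hS
  have hfv : ∀ v : Fin 2 → ZMod p, ∑ l, f (Pi.single l 1) * v l = f v := by
    intro v
    conv_rhs => rw [← Finset.univ_sum_single v]
    rw [map_sum]
    refine Finset.sum_congr rfl fun l _ => ?_
    have : (Pi.single l (v l) : Fin 2 → ZMod p) = v l • Pi.single l 1 := by
      rw [← Pi.single_smul]; simp
    rw [this, map_smul, smul_eq_mul, mul_comm]
  have hc := hs (fun l => f (Pi.single l 1)) (fun i => by
    rw [hfv]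
    exact hle (h1 i)) (fun i j => by
    have := hfv (fun l => B l i j)
    rw [this]
    exact hle (h2 i j))
  apply hf
  ext l
  have := congrFun hc l
  simpa using this

end RC2

open RC2 in
theorem rc2 (hb : BASStmt.{u}) : RC2Stmt.{u} := by
  intro p hp R _ π π' B B' hc hs hT hT'
  obtain ⟨x, Φ, D⟩ := exists_Dt hb π B hc hT
  obtain ⟨x', Φ', D'⟩ := exists_Dt hb π' B' hc hT'
  -- multiples of `p` and products are in the range of `Φ'`
  have hz : ∀ (n : ℤ) (v : Fin 2 → ZMod p), n • Φ' v = Φ' ((n : ZMod p) • v) := by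
    intro n v
    rw [← map_zsmul]
    congr 1
    ext l
    simp
  have hz' : ∀ (n : ℤ) (v : Fin 2 → ZMod p), n • Φ v = Φ ((n : ZMod p) • v) := by
    intro n v
    rw [← map_zsmul]
    congr 1
    ext l
    simp
  have hpr : ∀ r : R, p • r ∈ Φ'.range := by
    intro r
    obtain ⟨n, v, rfl⟩ := D'.gen r
    rw [smul_add, D'.pw, add_zero, Finset.smul_sum]
    refine AddSubgroup.sum_mem _ fun i _ => ?_
    rw [smul_comm, D'.px]
    exact AddSubgroup.zsmul_mem _ (AddMonoidHom.mem_range.2 ⟨_, rfl⟩) _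
  have hmul : ∀ r s : R, r * s ∈ Φ'.range := by
    intro r s
    obtain ⟨n, v, rfl⟩ := D'.gen r
    obtain ⟨m, w, rfl⟩ := D'.gen s
    have e1 : (∑ i, n i • x' i) * Φ' w = 0 := by
      rw [Finset.sum_mul]
      refine Finset.sum_eq_zero fun i _ => ?_
      rw [smul_mul_assoc, D'.xw, smul_zero]
    have e2 : Φ' v * (∑ i, m i • x' i) = 0 := by
      rw [Finset.mul_sum]
      refine Finset.sum_eq_zero fun i _ => ?_
      rw [mul_smul_comm, D'.wx, smul_zero]
    rw [add_mul, mul_add, mul_add, e1, e2, D'.ww, add_zero, add_zero, add_zero, Finset.sum_mul]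
    refine AddSubgroup.sum_mem _ fun i _ => ?_
    rw [Finset.mul_sum]
    refine AddSubgroup.sum_mem _ fun j _ => ?_
    rw [smul_mul_assoc, mul_smul_comm, D'.xx]
    exact AddSubgroup.zsmul_mem _ (AddSubgroup.zsmul_mem _ (AddMonoidHom.mem_range.2 ⟨_, rfl⟩) _) _
  -- the range of `Φ` is contained in the range of `Φ'`
  have hK : Φ'.range.comap Φ = ⊤ := by
    apply span2 hs
    · intro i
      rw [AddSubgroup.mem_comap, ← D.px]
      exact hpr _
    · intro i j
      rw [AddSubgroup.mem_comap, ← D.xx]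
      exact hmul _ _
  have hR : ∀ v, ∃ v', Φ' v' = Φ v := by
    intro v
    have : v ∈ Φ'.range.comap Φ := by rw [hK]; exact AddSubgroup.mem_top v
    exact this
  choose m hm using fun l : Fin 2 => hR (Pi.single l 1)
  let M : Matrix (Fin 2) (Fin 2) (ZMod p) := Matrix.of fun k l => m l k
  have hMv : ∀ v : Fin 2 → ZMod p, Φ' (M.mulVec v) = Φ v := by
    intro v
    have e1 : M.mulVec v = ∑ l, v l • m l := by
      ext k
      simp [M, Matrix.mulVec, dotProduct, mul_comm]
    have e2 : v = ∑ l, v l • (Pi.single l 1 : Fin 2 → ZMod p) := by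
      conv_lhs => rw [← Finset.univ_sum_single v]
      refine Finset.sum_congr rfl fun l _ => ?_
      rw [← Pi.single_smul]; simp
    have e3 : ∀ (F : (Fin 2 → ZMod p) →+ R) (a : ZMod p) (w : Fin 2 → ZMod p),
        F (a • w) = a.val • F w := by
      intro F a w
      rw [← map_nsmul]
      congr 1
      ext k
      simp
    rw [e1, map_sum]
    conv_rhs => rw [e2, map_sum]
    refine Finset.sum_congr rfl fun l _ => ?_
    rw [e3, e3, hm]
  have hMdet : M.det ≠ 0 := by
    intro h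
    obtain ⟨v, hv, hv0⟩ := Matrix.exists_mulVec_eq_zero_iff.2 h
    apply hv
    apply D.inj
    rw [← hMv, hv0, map_zero, map_zero]
  -- the matrix `g`
  choose n q hnq using fun i => D.gen (x' i)
  let g : Matrix (Fin 2) (Fin 2) (ZMod p) := Matrix.of fun j i => (n i j : ZMod p)
  have hgdet : g.det ≠ 0 := by
    intro h
    obtain ⟨v, hv, hv0⟩ := Matrix.exists_mulVec_eq_zero_iff.2 h
    apply hv
    -- the combination is in the range of `Φ`
    have hsum : ∑ i, ((v i).val : ℤ) • x' i ∈ Φ.range := by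
      have e1 : ∑ i, ((v i).val : ℤ) • x' i =
          ∑ j, (∑ i, ((v i).val : ℤ) * n i j) • x j + ∑ i, ((v i).val : ℤ) • Φ (q i) := by
        have : ∀ i, x' i = ∑ j, n i j • x j + Φ (q i) := hnq
        simp only [Fin.sum_univ_two] at this ⊢
        rw [this 0, this 1]
        simp only [smul_add, add_smul, mul_smul]
        abel
      rw [e1]
      refine AddSubgroup.add_mem _ (AddSubgroup.sum_mem _ fun j _ => ?_)
        (AddSubgroup.sum_mem _ fun i _ => AddSubgroup.zsmul_mem _ (AddMonoidHom.mem_range.2 ⟨_, rfl⟩) _)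
      have e2 : ((∑ i, ((v i).val : ℤ) * n i j : ℤ) : ZMod p) = 0 := by
        have := congrFun hv0 j
        simp only [g, Matrix.mulVec, dotProduct, Matrix.of_apply, Pi.zero_apply] at this
        rw [← this]
        push_cast
        refine Finset.sum_congr rfl fun i _ => ?_
        rw [ZMod.natCast_zmod_val, mul_comm]
      obtain ⟨t, ht⟩ := (ZMod.intCast_zmod_eq_zero_iff_dvd _ p).1 e2
      rw [ht, mul_comm, mul_smul, natCast_zsmul, D.px]
      exact AddSubgroup.zsmul_mem _ (AddMonoidHom.mem_range.2 ⟨_, rfl⟩) _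
    obtain ⟨w, hw⟩ := hsum
    have e4 : ∑ i, ((v i).val : ℤ) • x' i + Φ' (-(M.mulVec w)) = 0 := by
      rw [map_neg, hMv, ← hw, add_neg_cancel]
    have e5 := D'.ind _ _ e4
    ext i
    have e6 : (((v i).val : ℤ) : ZMod p) = 0 := (ZMod.intCast_zmod_eq_zero_iff_dvd _ p).2 (e5 i)
    have e7 : (((v i).val : ℤ) : ZMod p) = v i := by push_cast; exact ZMod.natCast_zmod_val _
    rw [← e7, e6]
    rfl
  have hinv : M⁻¹ * M = 1 := Matrix.nonsing_inv_mul _ (isUnit_iff_ne_zero.2 hMdet)
  have hM1 : ∀ v w : Fin 2 → ZMod p, v = M.mulVec w → M⁻¹.mulVec v = w := by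
    intro v w h
    rw [h, Matrix.mulVec_mulVec, hinv, Matrix.one_mulVec]
  refine ⟨g, M⁻¹, hgdet, ?_, ?_, ?_⟩
  · intro h
    rw [Matrix.det_nonsing_inv, Ring.inverse_eq_inv'] at h
    exact hMdet (inv_eq_zero.1 h)
  · intro i l
    have e1 : π' i = M.mulVec (∑ j, g j i • π j) := by
      apply D'.inj
      rw [← D'.px, hMv, hnq i, smul_add, D.pw, add_zero, Finset.smul_sum, map_sum]
      refine Finset.sum_congr rfl fun j _ => ?_
      rw [smul_comm, D.px, hz']
      rfl
    have e2 := congrFun (hM1 _ _ e1) l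
    rw [Matrix.mulVec, dotProduct] at e2
    rw [e2]
    simp
  · intro i j l
    have e1 : (fun k => B' k i j) =
        M.mulVec (∑ a, ∑ b, (g a i * g b j) • (fun k => B k a b)) := by
      apply D'.inj
      rw [← D'.xx, hMv, hnq i, hnq j]
      have e3 : (∑ a, n i a • x a) * Φ (q j) = 0 := by
        rw [Finset.sum_mul]
        refine Finset.sum_eq_zero fun a _ => ?_
        rw [smul_mul_assoc, D.xw, smul_zero]
      have e4 : Φ (q i) * (∑ a, n j a • x a) = 0 := by
        rw [Finset.mul_sum]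
        refine Finset.sum_eq_zero fun a _ => ?_
        rw [mul_smul_comm, D.wx, smul_zero]
      rw [add_mul, mul_add, mul_add, e3, e4, D.ww, add_zero, add_zero, add_zero, Finset.sum_mul,
        map_sum]
      refine Finset.sum_congr rfl fun a _ => ?_
      rw [Finset.mul_sum, map_sum]
      refine Finset.sum_congr rfl fun b _ => ?_
      rw [smul_mul_assoc, mul_smul_comm, D.xx, ← mul_smul, hz']
      congr 2
      simp [g]
    have e2 := congrFun (hM1 _ _ e1) l
    rw [Matrix.mulVec, dotProduct] at e2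
    rw [e2]
    simp only [Finset.sum_apply, Pi.smul_apply, smul_eq_mul]

end Pool.NR
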