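import Pool.Agent.H95.NR.RC2

/-! Module X22 of project NR: rings with `|Φ| = p ^ 2` and `Φ₂ = 0` have a table `tab22`. -/

set_option autoImplicit false

universe u

namespace Pool.NR

namespace X22

open RC2

theorem exists_basis_mod {p : ℕ} [hp : Fact p.Prime] {V : Type u} [AddCommGroup V]
    [Module (ZMod p) V] (k : ℕ) (hc : Nat.card V = p ^ k) : ∃ b : Fin k → V,
      (∀ v, ∃ a : Fin k → ZMod p, v = ∑ i, (a i).val • b i) ∧
      ∀ a : Fin k → ZMod p, ∑ i, (a i).val • b i = 0 → a = 0 := by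
  have hfin : Finite V := Nat.finite_of_card_ne_zero (by
    rw [hc]; exact pow_ne_zero _ hp.out.ne_zero)
  have hmf : Module.Finite (ZMod p) V := inferInstance
  have h1 := Module.natCard_eq_pow_finrank (K := ZMod p) (V := V)
  rw [hc, Nat.card_zmod] at h1
  have h2 : Module.finrank (ZMod p) V = k := (Nat.pow_right_injective hp.out.two_le h1).symm
  have hsm : ∀ (a : ZMod p) (v : V), a.val • v = a • v := by
    intro a v
    rw [← Nat.cast_smul_eq_nsmul (ZMod p), ZMod.natCast_zmod_val]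
  let b := Module.finBasisOfFinrankEq (ZMod p) V h2
  refine ⟨b, fun v => ⟨b.repr v, ?_⟩, fun a ha => ?_⟩
  · simp only [hsm]
    exact (b.sum_repr v).symm
  · simp only [hsm] at ha
    funext i
    exact Fintype.linearIndependent_iff.1 b.linearIndependent a ha i

theorem exists_basis {p : ℕ} [hp : Fact p.Prime] {V : Type u} [AddCommGroup V] (k : ℕ)
    (hV : ∀ v : V, p • v = 0) (hc : Nat.card V = p ^ k) : ∃ b : Fin k → V,
      (∀ v, ∃ a : Fin k → ZMod p, v = ∑ i, (a i).val • b i) ∧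
      ∀ a : Fin k → ZMod p, ∑ i, (a i).val • b i = 0 → a = 0 :=
  @exists_basis_mod p hp V _ (AddCommGroup.zmodModule hV) k hc

end X22

open RC2 X22 in
theorem x22 (_ : FILStmt.{u}) : X22Stmt.{u} := by
  intro p hp R _ hc _ hΦ hΦ2
  have hfin : Finite R := Nat.finite_of_card_ne_zero (by
    rw [hc]; exact pow_ne_zero _ hp.out.ne_zero)
  obtain ⟨Φ, hΦdef⟩ : ∃ Φ, Φ = Dd p (⊤ : AddSubgroup R) := ⟨_, rfl⟩
  rw [← hΦdef] at hΦ hΦ2
  have hA : ∀ r : R, p • r ∈ Φ := fun r => by
    rw [hΦdef]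
    exact AddSubgroup.subset_closure ⟨r, AddSubgroup.mem_top _, Or.inl rfl⟩
  have hB : ∀ r s : R, r * s ∈ Φ := fun r s => by
    rw [hΦdef]
    exact AddSubgroup.subset_closure ⟨s, AddSubgroup.mem_top _, Or.inr ⟨r, Or.inl rfl⟩⟩
  have hbot : Dd p Φ = ⊥ := AddSubgroup.card_eq_one.1 hΦ2
  have hC : ∀ s ∈ Φ, p • s = 0 := fun s hs => by
    have : p • s ∈ Dd p Φ := AddSubgroup.subset_closure ⟨s, hs, Or.inl rfl⟩
    rw [hbot] at this
    exact AddSubgroup.mem_bot.1 this
  have hD : ∀ s ∈ Φ, ∀ r, r * s = 0 := fun s hs r => by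
    have : r * s ∈ Dd p Φ := AddSubgroup.subset_closure ⟨s, hs, Or.inr ⟨r, Or.inl rfl⟩⟩
    rw [hbot] at this
    exact AddSubgroup.mem_bot.1 this
  have hE : ∀ s ∈ Φ, ∀ r, s * r = 0 := fun s hs r => by
    have : s * r ∈ Dd p Φ := AddSubgroup.subset_closure ⟨s, hs, Or.inr ⟨r, Or.inr rfl⟩⟩
    rw [hbot] at this
    exact AddSubgroup.mem_bot.1 this
  -- bases
  obtain ⟨b, hb1, hb2⟩ := exists_basis (p := p) (V := Φ) 2 (fun v => by
    apply Subtype.ext
    rw [AddSubgroup.coe_nsmul]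
    exact hC v.1 v.2) hΦ
  have hcQ : Nat.card (R ⧸ Φ) = p ^ 2 := by
    have h := AddSubgroup.card_eq_card_quotient_mul_card_addSubgroup Φ
    rw [hc, hΦ, show p ^ 4 = p ^ 2 * p ^ 2 by ring] at h
    exact (Nat.eq_of_mul_eq_mul_right (pow_pos hp.out.pos 2) h).symm
  obtain ⟨bq, hq1, -⟩ := exists_basis (p := p) (V := R ⧸ Φ) 2 (fun v => by
    obtain ⟨r, rfl⟩ := QuotientAddGroup.mk_surjective v
    rw [← QuotientAddGroup.mk_nsmul, QuotientAddGroup.eq_zero_iff]
    exact hA r) hcQ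
  choose x hx using fun i => QuotientAddGroup.mk_surjective (bq i)
  obtain ⟨w0, hw0⟩ : ∃ w0 : R, w0 = (b 0 : R) := ⟨_, rfl⟩
  obtain ⟨w1, hw1⟩ : ∃ w1 : R, w1 = (b 1 : R) := ⟨_, rfl⟩
  have hw0Φ : w0 ∈ Φ := hw0 ▸ (b 0).2
  have hw1Φ : w1 ∈ Φ := hw1 ▸ (b 1).2
  have h0 : p • w0 = 0 := hC _ hw0Φ
  have h1 : p • w1 = 0 := hC _ hw1Φ
  have hPhi : ∀ s ∈ Φ, ∃ v, s = Ph w0 w1 h0 h1 v := by
    intro s hs
    obtain ⟨a, ha⟩ := hb1 ⟨s, hs⟩
    refine ⟨a, ?_⟩
    rw [Ph_val, hw0, hw1]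
    have := congrArg (fun z : Φ => (z : R)) ha
    simp only [Fin.sum_univ_two, AddSubgroup.coe_add, AddSubgroup.coe_nsmul] at this
    exact this
  have hPin : ∀ v, Ph w0 w1 h0 h1 v ∈ Φ := by
    intro v
    rw [Ph_val]
    exact AddSubgroup.add_mem _ (AddSubgroup.nsmul_mem _ hw0Φ _) (AddSubgroup.nsmul_mem _ hw1Φ _)
  have hinj : Function.Injective (Ph w0 w1 h0 h1) := by
    rw [injective_iff_map_eq_zero]
    intro v hv
    apply hb2 v
    apply Subtype.ext
    rw [Ph_val, hw0, hw1] at hv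
    simp only [Fin.sum_univ_two, AddSubgroup.coe_add, AddSubgroup.coe_nsmul]
    exact hv
  have hgen : ∀ r : R, ∃ (n : Fin 2 → ℕ) (v : Fin 2 → ZMod p),
      r = n 0 • x 0 + n 1 • x 1 + Ph w0 w1 h0 h1 v := by
    intro r
    obtain ⟨a, ha⟩ := hq1 (r : R ⧸ Φ)
    have h2 : r - ((a 0).val • x 0 + (a 1).val • x 1) ∈ Φ := by
      rw [← QuotientAddGroup.eq_zero_iff, QuotientAddGroup.mk_sub, QuotientAddGroup.mk_add,
        QuotientAddGroup.mk_nsmul, QuotientAddGroup.mk_nsmul, ha, hx, hx, Fin.sum_univ_two, sub_self]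
    obtain ⟨v, hv⟩ := hPhi _ h2
    exact ⟨fun i => (a i).val, v, by rw [← hv]; abel⟩
  choose π hπ using fun i => hPhi _ (hA (x i))
  choose Bf hBf using fun i j => hPhi _ (hB (x i) (x j))
  refine ⟨π, fun l i j => Bf i j l, ?_, ?_⟩
  · -- surjectivity
    intro c hc1 hc2
    let cf : (Fin 2 → ZMod p) →+ ZMod p := AddMonoidHom.mk' (fun v => ∑ l, c l * v l) (by
      intro v w
      simp [mul_add, Finset.sum_add_distrib])
    have hcf : ∀ v, cf v = ∑ l, c l * v l := fun v => rfl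
    let K := cf.ker.map (Ph w0 w1 h0 h1)
    have hKpx : ∀ i, p • x i ∈ K := by
      intro i
      rw [hπ i]
      exact AddSubgroup.mem_map_of_mem _ (hc1 i)
    have hKxx : ∀ i j, x i * x j ∈ K := by
      intro i j
      rw [hBf i j]
      exact AddSubgroup.mem_map_of_mem _ (hc2 i j)
    have hKp : ∀ r : R, p • r ∈ K := by
      intro r
      obtain ⟨n, v, rfl⟩ := hgen r
      rw [smul_add, smul_add, hC _ (hPin v), add_zero, smul_comm, smul_comm p (n 1)]
      exact AddSubgroup.add_mem _ (AddSubgroup.nsmul_mem _ (hKpx 0) _)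
        (AddSubgroup.nsmul_mem _ (hKpx 1) _)
    have hKm : ∀ r s : R, r * s ∈ K := by
      intro r s
      obtain ⟨n, v, rfl⟩ := hgen r
      obtain ⟨m, w, rfl⟩ := hgen s
      rw [mul_add, hD _ (hPin w), add_zero, add_mul, hE _ (hPin v), add_zero]
      simp only [add_mul, mul_add, smul_mul_assoc, mul_smul_comm, smul_add]
      have := fun (a b : ℕ) i j => AddSubgroup.nsmul_mem K (AddSubgroup.nsmul_mem K (hKxx i j) a) b
      exact AddSubgroup.add_mem _ (AddSubgroup.add_mem _ (this _ _ _ _) (this _ _ _ _))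
        (AddSubgroup.add_mem _ (this _ _ _ _) (this _ _ _ _))
    have hle : Φ ≤ K := by
      rw [hΦdef]
      unfold Dd
      rw [AddSubgroup.closure_le]
      rintro y ⟨s, _, rfl | ⟨r, rfl | rfl⟩⟩
      · exact hKp s
      · exact hKm r s
      · exact hKm s r
    have hall : ∀ v, cf v = 0 := by
      intro v
      obtain ⟨v', hv', he⟩ := hle (hPin v)
      rw [← hinj he]
      exact hv'
    funext l
    have h3 := hall (Pi.single 0 1)
    have h4 := hall (Pi.single 1 1)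
    rw [hcf, Fin.sum_univ_two] at h3 h4
    fin_cases l
    · simpa using h3
    · simpa using h4
  · -- the table
    refine ⟨![x 0, x 1, w0, w1], ?_, ?_, ?_⟩
    · rw [eq_top_iff]
      intro r _
      obtain ⟨n, v, rfl⟩ := hgen r
      rw [Ph_val]
      have hm : ∀ i, (![x 0, x 1, w0, w1] : Fin 4 → R) i ∈
          AddSubgroup.closure (Set.range (![x 0, x 1, w0, w1] : Fin 4 → R)) :=
        fun i => AddSubgroup.subset_closure ⟨i, rfl⟩
      exact AddSubgroup.add_mem _ (AddSubgroup.add_mem _ (AddSubgroup.nsmul_mem _ (hm 0) _)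
        (AddSubgroup.nsmul_mem _ (hm 1) _)) (AddSubgroup.add_mem _
        (AddSubgroup.nsmul_mem _ (hm 2) _) (AddSubgroup.nsmul_mem _ (hm 3) _))
    · intro i
      have e0 := hπ 0
      have e1 := hπ 1
      rw [Ph_val] at e0 e1
      fin_cases i
      · simpa [tab22, Fin.sum_univ_four] using e0
      · simpa [tab22, Fin.sum_univ_four] using e1
      · simpa [tab22, Fin.sum_univ_four] using h0
      · simpa [tab22, Fin.sum_univ_four] using h1
    · intro i j
      have e00 := hBf 0 0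
      have e01 := hBf 0 1
      have e10 := hBf 1 0
      have e11 := hBf 1 1
      rw [Ph_val] at e00 e01 e10 e11
      have hl0 := hE w0 hw0Φ
      have hl1 := hE w1 hw1Φ
      have hr0 := hD w0 hw0Φ
      have hr1 := hD w1 hw1Φ
      fin_cases i <;> fin_cases j
      · simpa [tab22, Fin.sum_univ_four] using e00
      · simpa [tab22, Fin.sum_univ_four] using e01
      · simpa [tab22, Fin.sum_univ_four] using hr0 (x 0)
      · simpa [tab22, Fin.sum_univ_four] using hr1 (x 0)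
      · simpa [tab22, Fin.sum_univ_four] using e10
      · simpa [tab22, Fin.sum_univ_four] using e11
      · simpa [tab22, Fin.sum_univ_four] using hr0 (x 1)
      · simpa [tab22, Fin.sum_univ_four] using hr1 (x 1)
      · simpa [tab22, Fin.sum_univ_four] using hl0 (x 0)
      · simpa [tab22, Fin.sum_univ_four] using hl0 (x 1)
      · simpa [tab22, Fin.sum_univ_four] using hl0 w0
      · simpa [tab22, Fin.sum_univ_four] using hl0 w1
      · simpa [tab22, Fin.sum_univ_four] using hl1 (x 0)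
      · simpa [tab22, Fin.sum_univ_four] using hl1 (x 1)
      · simpa [tab22, Fin.sum_univ_four] using hl1 w0
      · simpa [tab22, Fin.sum_univ_four] using hl1 w1

end Pool.NR
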